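import Mathlib
import Pool.Agent.Helper6.SW.Defs
import Pool.Agent.Helper6.ER.Union
import Pool.Agent.Helper97.SW.Nsum
import Pool.Agent.Helper13.Om.BT

/-! Combinatorial part of the full limit theorem: the numbers `m p` must be covered by exceptional
primes. -/

namespace Pool.Agent.Helper6.ER2

open Finset Pool.Agent.Helper6.ER

/-- exceptional primes: `y < p ≤ x` with a nonzero class -/
def EX (x y : ℕ) (a : ℕ → ℤ) : Finset ℕ := (PR x).filter (fun p => y < p ∧ ¬ (p : ℤ) ∣ a p)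

lemma mem_EX {x y : ℕ} {a : ℕ → ℤ} {p : ℕ} :
    p ∈ EX x y a ↔ (p ≤ x ∧ p.Prime) ∧ (y < p ∧ ¬ (p : ℤ) ∣ a p) := by
  unfold EX
  rw [mem_filter, mem_PR]

theorem union_bound {x k y : ℕ} {a : ℕ → ℤ} (Ms : Finset ℕ) (P : ℕ → Finset ℕ) (hyx : y ≤ x)
    (hM : ∀ m ∈ Ms, 1 ≤ m ∧ m ≤ x ∧ m.primeFactors ⊆ NN y a ∧ (2 ∈ NN y a → 2 ∣ m))
    (hP : ∀ m ∈ Ms, ∀ p ∈ P m, p.Prime ∧ x < p ∧ m * p ≤ k ∧
      ∀ q ∈ NN y a, 3 ≤ q → ¬ q ∣ m → ¬ (q : ℤ) ∣ ((m * p : ℕ) : ℤ) - a q)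
    (hcov : ∀ t ∈ Icc 1 k, ∃ p ∈ PR x, (p : ℤ) ∣ (t : ℤ) - a p) :
    ∑ m ∈ Ms, (P m).card ≤ ∑ p ∈ EX x y a, (UP x k (EX x y a) a p).card := by
  classical
  obtain ⟨U, hU⟩ : ∃ U, U = (Icc 1 k).filter
      (fun t : ℕ => ∀ q ∈ PR x \ EX x y a, ¬ (q : ℤ) ∣ (t : ℤ) - a q) := ⟨_, rfl⟩
  have h1 : ∑ m ∈ Ms, (P m).card ≤ U.card := by
    rw [← Finset.card_sigma]
    apply Finset.card_le_card_of_injOn (fun s : (Σ _ : ℕ, ℕ) => s.1 * s.2)
    · rintro ⟨m, p⟩ hs
      rw [Finset.mem_coe, Finset.mem_sigma] at hs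
      obtain ⟨hm, hp⟩ := hs
      obtain ⟨hm1, hmx, hmS, hm2⟩ := hM m hm
      obtain ⟨hpp, hxp, hmk, hN⟩ := hP m hm p hp
      dsimp only at *
      rw [Finset.mem_coe, hU, mem_filter, mem_Icc]
      refine ⟨⟨Nat.mul_pos (by omega) hpp.pos, hmk⟩, ?_⟩
      intro q hq hdvd
      rw [mem_sdiff, mem_PR] at hq
      obtain ⟨⟨hqx, hqp⟩, hqE⟩ := hq
      rw [mem_EX] at hqE
      have hqP : ¬ q ∣ p := by
        intro h
        have := (Nat.prime_dvd_prime_iff_eq hqp hpp).mp h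
        omega
      by_cases hqa : (q : ℤ) ∣ a q
      · -- zero class
        have hdvd2 : (q : ℤ) ∣ ((m * p : ℕ) : ℤ) := by
          have := dvd_add hdvd hqa
          rwa [sub_add_cancel] at this
        have hdvd3 : q ∣ m * p := by exact_mod_cast hdvd2
        have hqm : q ∣ m := by
          rcases hqp.dvd_mul.mp hdvd3 with h | h
          · exact h
          · exact absurd h hqP
        have h2 := hmS (Nat.mem_primeFactors.mpr ⟨hqp, hqm, by omega⟩)
        exact (mem_NN.mp h2).2 hqa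
      · by_cases hqy : q ≤ y
        · have hqN : q ∈ NN y a := mem_NN.mpr ⟨⟨hqy, hqp⟩, hqa⟩
          by_cases hqm : q ∣ m
          · apply hqa
            have h3 : (q : ℤ) ∣ ((m * p : ℕ) : ℤ) := by exact_mod_cast hqm.mul_right p
            have := dvd_sub h3 hdvd
            rwa [sub_sub_cancel] at this
          · have h3 : 3 ≤ q := by
              have h2 := hqp.two_le
              rcases Nat.lt_or_ge q 3 with h | h
              · have : q = 2 := by omega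
                subst this
                exact absurd (hm2 hqN) hqm
              · exact h
            exact hN q hqN h3 hqm hdvd
        · exact hqE ⟨⟨hqx, hqp⟩, by omega, hqa⟩
    · rintro ⟨m, p⟩ hs ⟨m', p'⟩ hs' heq
      rw [Finset.mem_coe, Finset.mem_sigma] at hs hs'
      obtain ⟨hm, hp⟩ := hs
      obtain ⟨hm', hp'⟩ := hs'
      obtain ⟨hm1, hmx, _, _⟩ := hM m hm
      obtain ⟨hm1', hmx', _, _⟩ := hM m' hm'
      obtain ⟨hpp, hxp, _, _⟩ := hP m hm p hp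
      obtain ⟨hpp', hxp', _, _⟩ := hP m' hm' p' hp'
      dsimp only at *
      have hPP : p = p' := by
        have h : p ∣ m' * p' := ⟨m, by rw [← heq, mul_comm]⟩
        rcases hpp.dvd_mul.mp h with h | h
        · have := Nat.le_of_dvd (by omega) h
          omega
        · exact (Nat.prime_dvd_prime_iff_eq hpp hpp').mp h
      subst hPP
      have hmm : m = m' := Nat.eq_of_mul_eq_mul_right hpp.pos heq
      subst hmm
      rfl
  refine h1.trans ?_
  have h2 : U ⊆ (EX x y a).biUnion (fun p => UP x k (EX x y a) a p) := by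
    intro t ht
    rw [hU, mem_filter] at ht
    obtain ⟨p, hp, hpd⟩ := hcov t ht.1
    rw [mem_biUnion]
    have hpE : p ∈ EX x y a := by
      by_contra h
      exact ht.2 p (mem_sdiff.mpr ⟨hp, h⟩) hpd
    refine ⟨p, hpE, ?_⟩
    unfold UP
    rw [mem_filter]
    exact ⟨ht.1, hpd, ht.2⟩
  exact (Finset.card_le_card h2).trans Finset.card_biUnion_le

/-- class of the prime cofactor -/
noncomputable def rr (a : ℕ → ℤ) (m q : ℕ) : ℤ := a q * (((m : ZMod q)⁻¹).val : ℤ)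

lemma rr_spec {a : ℕ → ℤ} {m q : ℕ} (hq : q.Prime) (hm : ¬ q ∣ m) (ha : ¬ (q : ℤ) ∣ a q) :
    ¬ (q : ℤ) ∣ rr a m q ∧ ∀ p : ℕ, (q : ℤ) ∣ ((m * p : ℕ) : ℤ) - a q →
      (q : ℤ) ∣ (p : ℤ) - rr a m q := by
  haveI : Fact q.Prime := ⟨hq⟩
  have hm0 : (m : ZMod q) ≠ 0 := by
    intro h
    exact hm ((ZMod.natCast_eq_zero_iff m q).mp h)
  have hinv : (((((m : ZMod q)⁻¹).val : ℤ)) : ZMod q) = (m : ZMod q)⁻¹ := by
    rw [Int.cast_natCast, ZMod.natCast_val, ZMod.cast_id]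
  constructor
  · intro h
    unfold rr at h
    rw [← ZMod.intCast_zmod_eq_zero_iff_dvd, Int.cast_mul, hinv] at h
    rcases mul_eq_zero.mp h with h1 | h1
    · exact ha ((ZMod.intCast_zmod_eq_zero_iff_dvd _ _).mp h1)
    · exact inv_ne_zero hm0 h1
  · intro p hp
    unfold rr
    rw [← ZMod.intCast_zmod_eq_zero_iff_dvd] at hp ⊢
    rw [Int.cast_sub, Int.cast_mul, hinv, Int.cast_natCast]
    rw [Int.cast_sub, Int.cast_natCast, Nat.cast_mul] at hp
    have h1 : (m : ZMod q) * (p - (a q : ZMod q) * (m : ZMod q)⁻¹) = 0 := by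
      have : (m : ZMod q) * (p - (a q : ZMod q) * (m : ZMod q)⁻¹) =
          m * p - (a q : ZMod q) * (m * (m : ZMod q)⁻¹) := by ring
      rw [this, mul_inv_cancel₀ hm0, mul_one]
      exact hp
    rcases mul_eq_zero.mp h1 with h2 | h2
    · exact absurd h2 hm0
    · exact h2

/-- product over primes of `(Y, y]` -/
lemma exists_tail : ∃ c : ℝ, 0 < c ∧ ∀ (Y y : ℕ) (T : Finset ℕ), 2 ≤ Y → Y ≤ y →
    (∀ q ∈ T, q.Prime ∧ Y < q ∧ q ≤ y) →
    c * (Real.log Y / Real.log y) ≤ ∏ q ∈ T, (1 - 1 / (q : ℝ)) := by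
  classical
  obtain ⟨C, hC, hP⟩ := Pool.Agent.Helper97.SW.prod_PL_le
  refine ⟨1 / C, by positivity, ?_⟩
  intro Y y T hY hYy hT
  have hlY : 0 < Real.log Y := Real.log_pos (by exact_mod_cast hY)
  have hly : 0 < Real.log y := Real.log_pos (by exact_mod_cast (by omega : 1 < y))
  have hfac : ∀ q : ℕ, q.Prime → 0 < 1 - 1 / (q : ℝ) ∧ 1 - 1 / (q : ℝ) ≤ 1 := by
    intro q hq
    have h1 : (1 : ℝ) < q := by exact_mod_cast hq.one_lt
    constructor
    · have : 1 / (q : ℝ) < 1 := by rw [div_lt_one (by linarith)]; exact h1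
      linarith
    · have : 0 < 1 / (q : ℝ) := by positivity
      linarith
  -- full product up to y
  have h1 : 1 / (C * Real.log y) ≤ ∏ p ∈ PR y, (1 - 1 / (p : ℝ)) := by
    have h2 := hP y (by omega)
    have h3 : ∏ p ∈ Pool.Agent.Helper16.UB.PL y, (1 - 1 / (p : ℝ))⁻¹ =
        (∏ p ∈ PR y, (1 - 1 / (p : ℝ)))⁻¹ := by
      rw [← Finset.prod_inv_distrib]
      apply Finset.prod_congr _ (fun _ _ => rfl)
      ext p
      rw [Pool.Agent.Helper16.UB.mem_PL, mem_PR]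
      try exact and_comm
    rw [h3] at h2
    have h4 : 0 < ∏ p ∈ PR y, (1 - 1 / (p : ℝ)) :=
      Finset.prod_pos (fun p hp => (hfac p (mem_PR.mp hp).2).1)
    rw [div_le_iff₀ (by positivity)]
    rw [inv_le_iff_one_le_mul₀ h4] at h2
    linarith
  -- product up to Y
  have h5 : ∏ p ∈ PR Y, (1 - 1 / (p : ℝ)) ≤ 1 / Real.log Y := by
    have h2 := Helper13.Om.mertens_prod (Y + 1) (by omega)
    have h3 : (Y + 1).primesBelow = PR Y := by
      ext p
      rw [Nat.mem_primesBelow, mem_PR, Nat.lt_succ_iff]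
    rw [h3] at h2
    refine h2.trans ?_
    apply one_div_le_one_div_of_le hlY
    apply Real.log_le_log (by exact_mod_cast (by omega : 0 < Y))
    push_cast
    linarith
  have hsub : PR Y ∪ T ⊆ PR y := by
    intro q hq
    rw [mem_union] at hq
    rw [mem_PR]
    rcases hq with h | h
    · rw [mem_PR] at h
      exact ⟨h.1.trans hYy, h.2⟩
    · exact ⟨(hT q h).2.2, (hT q h).1⟩
  have hdis : Disjoint (PR Y) T := by
    rw [Finset.disjoint_left]
    intro q h1 h2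
    rw [mem_PR] at h1
    have := (hT q h2).2.1
    omega
  have h6 : ∏ p ∈ PR y, (1 - 1 / (p : ℝ)) ≤
      (∏ p ∈ PR Y, (1 - 1 / (p : ℝ))) * ∏ q ∈ T, (1 - 1 / (q : ℝ)) := by
    rw [← Finset.prod_union hdis]
    rw [← Finset.prod_sdiff hsub]
    have h7 : ∏ p ∈ PR y \ (PR Y ∪ T), (1 - 1 / (p : ℝ)) ≤ 1 := by
      apply Finset.prod_le_one
      · intro p hp
        exact (hfac p (mem_PR.mp (mem_sdiff.mp hp).1).2).1.le
      · intro p hp
        exact (hfac p (mem_PR.mp (mem_sdiff.mp hp).1).2).2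
    have h8 : 0 ≤ ∏ p ∈ PR Y ∪ T, (1 - 1 / (p : ℝ)) :=
      Finset.prod_nonneg (fun p hp => (hfac p (mem_PR.mp (hsub hp)).2).1.le)
    calc _ ≤ 1 * ∏ p ∈ PR Y ∪ T, (1 - 1 / (p : ℝ)) := mul_le_mul_of_nonneg_right h7 h8
      _ = _ := one_mul _
  have hTpos : 0 < ∏ q ∈ T, (1 - 1 / (q : ℝ)) := Finset.prod_pos (fun q hq => (hfac q (hT q hq).1).1)
  have h9 : 1 / (C * Real.log y) ≤ (1 / Real.log Y) * ∏ q ∈ T, (1 - 1 / (q : ℝ)) :=
    h1.trans (h6.trans (mul_le_mul_of_nonneg_right h5 hTpos.le))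
  calc 1 / C * (Real.log Y / Real.log y) = (1 / (C * Real.log y)) * Real.log Y := by
        field_simp
    _ ≤ ((1 / Real.log Y) * ∏ q ∈ T, (1 - 1 / (q : ℝ))) * Real.log Y :=
        mul_le_mul_of_nonneg_right h9 hlY.le
    _ = ∏ q ∈ T, (1 - 1 / (q : ℝ)) := by field_simp

end Pool.Agent.Helper6.ER2
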