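import Mathlib
import Pool.Agent.Helper6.ER2.Core
import Pool.Agent.Helper6.ER.PartB

/-! The structure theorem for all runs and the limit of the Erdos-Rankin method. -/

namespace Pool.Agent.Helper6.ER2

open Finset Filter Pool.Agent.Helper6.ER

/-- the primes `y < p ≤ x` which do not divide `m` -/
def Miss (x y m : ℕ) : Finset ℕ :=
  (range (x + 1)).filter (fun p => p.Prime ∧ y < p ∧ ¬ p ∣ m)

lemma mem_Miss {x y m p : ℕ} : p ∈ Miss x y m ↔ p ≤ x ∧ p.Prime ∧ y < p ∧ ¬ p ∣ m := by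
  unfold Miss
  rw [mem_filter, mem_range, Nat.lt_succ_iff]

lemma EX_eq {x y m : ℕ} {b : ℤ} (hb : ∀ p : ℕ, (p : ℤ) ∣ b ↔ p ∣ m) :
    EX x y (fun _ => b) = Miss x y m := by
  ext p
  rw [mem_EX, mem_Miss, hb p]
  tauto

/-- the structure theorem for given constants -/
def StA2 (K₀ c₀ c₁ : ℝ) : Prop := ∃ x₀ : ℕ, ∀ x ≥ x₀, ∀ (y k n m : ℕ),
    2 ≤ y → (y : ℝ) ≤ (x : ℝ) ^ c₀ → K₀ * x ≤ k → k ≤ x ^ 2 → InA x k n → n ≤ m → m ≤ n + k →
    c₁ * min 1 (Real.log ((k : ℝ) / x) / Real.log y) ≤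
      ∑ p ∈ Miss x y m, (1 / (p : ℝ)) * (Real.log x / Real.log ((k : ℝ) / p))

/-- the limit of the Erdos-Rankin method for given constants -/
def StB2 (C c₀ : ℝ) : Prop := ∃ x₀ : ℕ, ∀ x ≥ x₀, ∀ (y z k n m : ℕ),
    2 ≤ y → (y : ℝ) ≤ (x : ℝ) ^ c₀ → (x : ℝ) ^ (1 - c₀) ≤ z → z ≤ x →
    InA x k n → n ≤ m → m ≤ n + k → (∀ p : ℕ, p.Prime → y < p → p ≤ z → p ∣ m) →
    (k : ℝ) ≤ x * Real.exp (C * (1 + Real.log ((x : ℝ) / z) +
      Real.sqrt (Real.log y * (1 + Real.log ((x : ℝ) / z)))))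

theorem partA2 {K₀ c₀ c₁ : ℝ} (hK₀ : 0 < K₀) (hc₁ : 0 < c₁) (h : StCore2 K₀ c₀ c₁) :
    StA2 (3 * K₀ + 9) c₀ (c₁ / 4) := by
  obtain ⟨x₁, hx₁⟩ := h
  refine ⟨max x₁ 2, ?_⟩
  intro x hx y k n m hy2 hyx hk1 hk2 hA hnm hmk
  have hxx₁ : x₁ ≤ x := le_trans (le_max_left _ _) hx
  have hx2 : 2 ≤ x := le_trans (le_max_right _ _) hx
  obtain ⟨L, hLdef⟩ : ∃ L, L = Real.log x := ⟨_, rfl⟩
  rw [← hLdef]
  have hx0 : (0 : ℝ) < x := by exact_mod_cast (by omega : 0 < x)
  have hL0 : 0 < L := by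
    rw [hLdef]
    exact Real.log_pos (by exact_mod_cast (by omega : 1 < x))
  obtain ⟨k', b, hkk, hk'k, hb, hcov⟩ := one_side hA hnm hmk
  have hk9r : (9 : ℝ) * x ≤ k := by nlinarith
  have hk9 : 9 * x ≤ k := by exact_mod_cast hk9r
  have hk3 : k ≤ 3 * k' := by omega
  have hk3r : (k : ℝ) / 3 ≤ k' := by
    rw [div_le_iff₀ (by norm_num)]
    have : (k : ℝ) ≤ 3 * k' := by exact_mod_cast hk3
    linarith
  have hk0 : (0 : ℝ) < k := by
    have : 0 < k := by omega
    exact_mod_cast this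
  have hk1' : K₀ * x ≤ k' := by
    refine le_trans ?_ hk3r
    rw [le_div_iff₀ (by norm_num)]
    nlinarith
  have hmain := hx₁ x hxx₁ y k' (fun _ => b) hy2 hyx hk1' (hk'k.trans hk2) hcov
  rw [EX_eq hb, ← hLdef] at hmain
  have hlogy : 0 < Real.log y := Real.log_pos (by exact_mod_cast (by omega : 1 < y))
  have hhalf : ∀ u : ℝ, 9 ≤ u → Real.log u / 2 ≤ Real.log (u / 3) := by
    intro u hu
    have h1 : Real.log 9 ≤ Real.log u := Real.log_le_log (by norm_num) hu
    have h2 : Real.log 9 = 2 * Real.log 3 := by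
      rw [show (9 : ℝ) = 3 ^ 2 by norm_num, Real.log_pow]
      push_cast
      ring
    rw [Real.log_div (by linarith) (by norm_num)]
    linarith
  have hlogK : Real.log ((k : ℝ) / x) / 2 ≤ Real.log ((k' : ℝ) / x) := by
    have h1 : (9 : ℝ) ≤ (k : ℝ) / x := by
      rw [le_div_iff₀ hx0]
      exact hk9r
    refine (hhalf _ h1).trans ?_
    apply Real.log_le_log (by positivity)
    rw [div_right_comm]
    exact div_le_div_of_nonneg_right hk3r hx0.le
  have hmin : (1 / 2) * min 1 (Real.log ((k : ℝ) / x) / Real.log y) ≤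
      min 1 (Real.log ((k' : ℝ) / x) / Real.log y) := by
    apply le_min
    · have := min_le_left 1 (Real.log ((k : ℝ) / x) / Real.log y)
      linarith
    · have h1 := min_le_right 1 (Real.log ((k : ℝ) / x) / Real.log y)
      calc (1 / 2) * min 1 (Real.log ((k : ℝ) / x) / Real.log y)
          ≤ (1 / 2) * (Real.log ((k : ℝ) / x) / Real.log y) := by linarith
        _ = (Real.log ((k : ℝ) / x) / 2) / Real.log y := by ring
        _ ≤ _ := div_le_div_of_nonneg_right hlogK hlogy.le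
  have hsum : ∑ p ∈ Miss x y m, (1 / (p : ℝ)) * (L / Real.log ((k' : ℝ) / p)) ≤
      2 * ∑ p ∈ Miss x y m, (1 / (p : ℝ)) * (L / Real.log ((k : ℝ) / p)) := by
    rw [Finset.mul_sum]
    apply Finset.sum_le_sum
    intro p hp
    obtain ⟨hpx, hpp, _⟩ := mem_Miss.mp hp
    have hp0 : (0 : ℝ) < p := by exact_mod_cast hpp.pos
    have hpxr : (p : ℝ) ≤ x := by exact_mod_cast hpx
    have h1 : (9 : ℝ) ≤ (k : ℝ) / p := by
      rw [le_div_iff₀ hp0]
      nlinarith
    have h2 : Real.log ((k : ℝ) / p) / 2 ≤ Real.log ((k' : ℝ) / p) := by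
      refine (hhalf _ h1).trans ?_
      apply Real.log_le_log (by positivity)
      rw [div_right_comm]
      exact div_le_div_of_nonneg_right hk3r hp0.le
    have h3 : 0 < Real.log ((k : ℝ) / p) := Real.log_pos (by linarith)
    have h4 : L / Real.log ((k' : ℝ) / p) ≤ 2 * (L / Real.log ((k : ℝ) / p)) := by
      rw [mul_div_assoc', div_le_div_iff₀ (by linarith) h3]
      nlinarith
    calc (1 / (p : ℝ)) * (L / Real.log ((k' : ℝ) / p))
        ≤ (1 / (p : ℝ)) * (2 * (L / Real.log ((k : ℝ) / p))) :=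
          mul_le_mul_of_nonneg_left h4 (by positivity)
      _ = 2 * ((1 / (p : ℝ)) * (L / Real.log ((k : ℝ) / p))) := by ring
  have hfin := hmain.trans hsum
  have h5 := mul_le_mul_of_nonneg_left hmin hc₁.le
  linarith

theorem partB2 {K₀ c₀ c₁ : ℝ} (hK₀ : 1 < K₀) (hc₀ : 0 < c₀) (hc₁ : 0 < c₁)
    (h : StA2 K₀ c₀ c₁) : ∃ C' c₀' : ℝ, 0 < C' ∧ 0 < c₀' ∧ StB2 C' c₀' := by
  obtain ⟨Cm, hCm, hM⟩ := Helper10.P5.mertens_interval
  obtain ⟨β, hβ⟩ : ∃ β, β = 2 * (1 + Cm) / c₁ := ⟨_, rfl⟩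
  have hβ0 : 0 < β := by rw [hβ]; positivity
  have hlK0 : 0 < Real.log K₀ := Real.log_pos hK₀
  obtain ⟨C', hC'⟩ : ∃ C', C' = Real.log K₀ + β + Real.sqrt β + 1 := ⟨_, rfl⟩
  have hsβ : 0 ≤ Real.sqrt β := Real.sqrt_nonneg _
  have hC'1 : 1 ≤ C' := by rw [hC']; linarith
  have hC'0 : 0 < C' := by linarith
  obtain ⟨c₀', hc₀'⟩ : ∃ c₀', c₀' = min c₀ (min (1 / 2) (1 / (8 * C'))) := ⟨_, rfl⟩
  have hc₀'0 : 0 < c₀' := by
    rw [hc₀']
    exact lt_min hc₀ (lt_min (by norm_num) (by positivity))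
  have hc₀'1 : c₀' ≤ c₀ := by rw [hc₀']; exact min_le_left _ _
  have hc₀'2 : c₀' ≤ 1 / 2 := by
    rw [hc₀']; exact (min_le_right _ _).trans (min_le_left _ _)
  have hc₀'3 : c₀' ≤ 1 / (8 * C') := by
    rw [hc₀']; exact (min_le_right _ _).trans (min_le_right _ _)
  refine ⟨C', c₀', hC'0, hc₀'0, ?_⟩
  obtain ⟨x₁, hx₁⟩ := h
  have hlog : Tendsto (fun x : ℕ => Real.log (x : ℝ)) atTop atTop :=
    Real.tendsto_log_atTop.comp tendsto_natCast_atTop_atTop
  obtain ⟨x₂, hx₂⟩ := eventually_atTop.mp (hlog.eventually_ge_atTop (4 * C' + 1))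
  refine ⟨max (max x₁ x₂) 2, ?_⟩
  -- the case k ≤ x ^ 2
  have hcase : ∀ x ≥ max (max x₁ x₂) 2, ∀ (y z k n m : ℕ), 2 ≤ y →
    (y : ℝ) ≤ (x : ℝ) ^ c₀' → (x : ℝ) ^ (1 - c₀') ≤ z → z ≤ x → k ≤ x ^ 2 →
    InA x k n → n ≤ m → m ≤ n + k →
    (∀ p : ℕ, p.Prime → y < p → p ≤ z → p ∣ m) →
    (k : ℝ) ≤ x * Real.exp (C' * (1 + Real.log ((x : ℝ) / z) +
      Real.sqrt (Real.log y * (1 + Real.log ((x : ℝ) / z))))) := by
    intro x hx y z k n m hy1 hy2 hz1 hzx hk2 hA hnm hmk hmd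
    have hxx₁ : x₁ ≤ x := le_trans (le_trans (le_max_left _ _) (le_max_left _ _)) hx
    have hxx₂ : x₂ ≤ x := le_trans (le_trans (le_max_right _ _) (le_max_left _ _)) hx
    have hx2 : 2 ≤ x := le_trans (le_max_right _ _) hx
    have hx0 : (0 : ℝ) < x := by exact_mod_cast (by omega : 0 < x)
    have hx1r : (1 : ℝ) ≤ x := by exact_mod_cast (by omega : 1 ≤ x)
    obtain ⟨L, hLdef⟩ : ∃ L, L = Real.log x := ⟨_, rfl⟩
    have hL1 : 1 ≤ L := by
      rw [hLdef]
      have := hx₂ x hxx₂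
      linarith
    have hL0 : 0 < L := by linarith
    have hz0 : (0 : ℝ) < z := lt_of_lt_of_le (Real.rpow_pos_of_pos hx0 _) hz1
    have hzn : 1 ≤ z := by
      have : 0 < z := by exact_mod_cast hz0
      omega
    have hlz : L / 2 ≤ Real.log z := by
      have h1 := Real.log_le_log (Real.rpow_pos_of_pos hx0 _) hz1
      rw [Real.log_rpow hx0, ← hLdef] at h1
      nlinarith
    have hw0 : 0 ≤ Real.log ((x : ℝ) / z) := by
      apply Real.log_nonneg
      rw [le_div_iff₀ hz0, one_mul]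
      exact_mod_cast hzx
    obtain ⟨w, hw⟩ : ∃ w, w = Real.log ((x : ℝ) / z) := ⟨_, rfl⟩
    rw [← hw] at hw0 ⊢
    have hsq0 : 0 ≤ Real.sqrt (Real.log y * (1 + w)) := Real.sqrt_nonneg _
    rcases Nat.eq_zero_or_pos k with hk0 | hk0
    · subst hk0
      rw [Nat.cast_zero]
      positivity
    have hk0r : (0 : ℝ) < k := by exact_mod_cast hk0
    have hgoal : Real.log ((k : ℝ) / x) ≤ C' * (1 + w + Real.sqrt (Real.log y * (1 + w))) →
        (k : ℝ) ≤ x * Real.exp (C' * (1 + w + Real.sqrt (Real.log y * (1 + w)))) := by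
      intro h1
      have h2 := Real.exp_le_exp.mpr h1
      rw [Real.exp_log (by positivity), div_le_iff₀ hx0] at h2
      linarith
    apply hgoal
    rcases lt_or_ge (k : ℝ) (K₀ * x) with hsmall | hlarge
    · have h1 : (k : ℝ) / x ≤ K₀ := by
        rw [div_le_iff₀ hx0]
        linarith
      have h2 := Real.log_le_log (by positivity) h1
      refine h2.trans ?_
      have h3 : Real.log K₀ ≤ C' := by rw [hC']; linarith
      have h4 : 0 ≤ C' * (w + Real.sqrt (Real.log y * (1 + w))) := by positivity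
      nlinarith
    · have hy2' : (y : ℝ) ≤ (x : ℝ) ^ c₀ :=
        hy2.trans (Real.rpow_le_rpow_of_exponent_le hx1r hc₀'1)
      have hA' := hx₁ x hxx₁ y k n m hy1 hy2' hlarge hk2 hA hnm hmk
      rw [← hLdef] at hA'
      have hly : 0 < Real.log y := Real.log_pos (by exact_mod_cast (by omega : 1 < y))
      have hK : 1 < (k : ℝ) / x := by
        rw [lt_div_iff₀ hx0, one_mul]
        refine lt_of_lt_of_le ?_ hlarge
        nlinarith
      have hlK : 0 < Real.log ((k : ℝ) / x) := Real.log_pos hK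
      have hExc : ∀ p ∈ Miss x y m, p.Prime ∧ z < p ∧ p ≤ x := by
        intro p hp
        obtain ⟨hpx, hpp, h4, h5⟩ := mem_Miss.mp hp
        refine ⟨hpp, ?_, hpx⟩
        by_contra h6
        exact h5 (hmd p hpp h4 (by omega))
      have hwin := sum_primes_window hCm hM hLdef hL0 hzn hzx hlz (Miss x y m) hExc
      rw [← hw] at hwin
      have hbound : ∑ p ∈ Miss x y m, (1 / (p : ℝ)) * (L / Real.log ((k : ℝ) / p)) ≤
          c₁ * β * (1 + w) / Real.log ((k : ℝ) / x) := by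
        calc ∑ p ∈ Miss x y m, (1 / (p : ℝ)) * (L / Real.log ((k : ℝ) / p))
            ≤ ∑ p ∈ Miss x y m, (1 / (p : ℝ)) * (L / Real.log ((k : ℝ) / x)) := by
              apply Finset.sum_le_sum
              intro p hp
              obtain ⟨hpp, hzp, hpx⟩ := hExc p hp
              have hp0 : (0 : ℝ) < p := by exact_mod_cast hpp.pos
              apply mul_le_mul_of_nonneg_left _ (by positivity)
              apply div_le_div_of_nonneg_left hL0.le hlK
              apply Real.log_le_log (by positivity)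
              exact div_le_div_of_nonneg_left hk0r.le hp0 (by exact_mod_cast hpx)
          _ = (L / Real.log ((k : ℝ) / x)) * ∑ p ∈ Miss x y m, (1 : ℝ) / p := by
              rw [← Finset.sum_mul, mul_comm]
          _ ≤ (L / Real.log ((k : ℝ) / x)) * (2 * (1 + Cm) * (1 + w) / L) :=
              mul_le_mul_of_nonneg_left hwin (by positivity)
          _ = c₁ * β * (1 + w) / Real.log ((k : ℝ) / x) := by
              rw [hβ]
              field_simp
      have hs := solve_ineq hc₁ hβ0 hlK hly hw0 (hA'.trans hbound)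
      refine hs.trans ?_
      have h3 : β * (1 + w) ≤ C' * (1 + w) := by
        apply mul_le_mul_of_nonneg_right _ (by linarith)
        rw [hC']
        linarith
      have h4 : Real.sqrt β * Real.sqrt (Real.log y * (1 + w)) ≤
          C' * Real.sqrt (Real.log y * (1 + w)) := by
        apply mul_le_mul_of_nonneg_right _ hsq0
        rw [hC']
        linarith
      linarith
  intro x hx y z k n m hy1 hy2 hz1 hzx hA hnm hmk hmd
  rcases le_or_gt k (x ^ 2) with hk2 | hk2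
  · exact hcase x hx y z k n m hy1 hy2 hz1 hzx hk2 hA hnm hmk hmd
  · exfalso
    obtain ⟨n', hn'1, hn'2, hn'3, hn'4⟩ : ∃ n', n ≤ n' ∧ n' ≤ m ∧ m ≤ n' + x ^ 2 ∧
        n' + x ^ 2 ≤ n + k := by
      refine ⟨min m (n + k - x ^ 2), ?_, min_le_left _ _, ?_, ?_⟩
      · apply le_min hnm
        omega
      · rcases le_total m (n + k - x ^ 2) with h1 | h1
        · rw [min_eq_left h1]; omega
        · rw [min_eq_right h1]; omega
      · have := min_le_right m (n + k - x ^ 2)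
        omega
    have hA' : InA x (x ^ 2) n' := by
      intro i hi
      rw [mem_Icc] at hi
      obtain ⟨p, hp, hpx, hd⟩ := hA (n' - n + i) (mem_Icc.mpr ⟨by omega, by omega⟩)
      refine ⟨p, hp, hpx, ?_⟩
      have : n + (n' - n + i) = n' + i := by omega
      rwa [this] at hd
    have hb := hcase x hx y z (x ^ 2) n' m hy1 hy2 hz1 hzx le_rfl hA' hn'2 hn'3 hmd
    have hxx₂ : x₂ ≤ x := le_trans (le_trans (le_max_right _ _) (le_max_left _ _)) hx
    have hx2 : 2 ≤ x := le_trans (le_max_right _ _) hx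
    have hx0 : (0 : ℝ) < x := by exact_mod_cast (by omega : 0 < x)
    obtain ⟨L, hLdef⟩ : ∃ L, L = Real.log x := ⟨_, rfl⟩
    have hLbig : 4 * C' + 1 ≤ L := by
      rw [hLdef]
      exact hx₂ x hxx₂
    have hL0 : 0 < L := by linarith
    have hz0 : (0 : ℝ) < z := lt_of_lt_of_le (Real.rpow_pos_of_pos hx0 _) hz1
    have hy0 : (0 : ℝ) < y := by exact_mod_cast (by omega : 0 < y)
    have h1 : L ≤ C' * (1 + Real.log ((x : ℝ) / z) +
        Real.sqrt (Real.log y * (1 + Real.log ((x : ℝ) / z)))) := by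
      push_cast at hb
      rw [pow_two] at hb
      have h2 := le_of_mul_le_mul_left hb hx0
      have h3 := Real.log_le_log hx0 h2
      rwa [Real.log_exp, ← hLdef] at h3
    have hw : Real.log ((x : ℝ) / z) ≤ c₀' * L := by
      have h2 := Real.log_le_log (Real.rpow_pos_of_pos hx0 _) hz1
      rw [Real.log_rpow hx0, ← hLdef] at h2
      rw [Real.log_div hx0.ne' hz0.ne', ← hLdef]
      linarith
    have hw0 : 0 ≤ Real.log ((x : ℝ) / z) := by
      apply Real.log_nonneg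
      rw [le_div_iff₀ hz0, one_mul]
      exact_mod_cast hzx
    have hly : Real.log y ≤ c₀' * L := by
      have h2 := Real.log_le_log hy0 hy2
      rwa [Real.log_rpow hx0, ← hLdef] at h2
    have hly0 : 0 ≤ Real.log y := Real.log_nonneg (by exact_mod_cast (by omega : 1 ≤ y))
    have hsq : Real.sqrt (Real.log y * (1 + Real.log ((x : ℝ) / z))) ≤ c₀' * L + 1 / 2 := by
      rw [Real.sqrt_le_left (by positivity)]
      nlinarith [sq_nonneg (Real.log y - (1 + Real.log ((x : ℝ) / z)))]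
    have hc3 : C' * (c₀' * L) ≤ L / 8 := by
      have h2 : C' * c₀' ≤ 1 / 8 := by
        calc C' * c₀' ≤ C' * (1 / (8 * C')) := mul_le_mul_of_nonneg_left hc₀'3 hC'0.le
          _ = 1 / 8 := by field_simp
      nlinarith
    have h4 : L ≤ C' * (1 + c₀' * L + (c₀' * L + 1 / 2)) := by
      refine h1.trans (mul_le_mul_of_nonneg_left ?_ hC'0.le)
      linarith
    have h5 : C' * (1 + c₀' * L + (c₀' * L + 1 / 2)) =
        3 / 2 * C' + C' * (c₀' * L) + C' * (c₀' * L) := by ring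
    rw [h5] at h4
    linarith

end Pool.Agent.Helper6.ER2
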