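import Mathlib
import Pool.Agent.Helper6.ER2.Parts
import Pool.Agent.Helper6.SW.Partial
import Pool.Agent.Helper6.SW.RealChar
import Pool.Agent.Helper6.SW.Estermann
import Pool.Agent.Helper6.SW.SiegelB
import Pool.Agent.Helper4.SW.Upper
import Pool.Agent.Helper4.ER.Capacity
import Pool.Agent.Helper16.SW.Triv
import Pool.Agent.Helper16.SW.Quad
import Pool.Agent.Helper16.SW.Minorant
import Pool.Agent.Helper51.SW.Lower
import Pool.Agent.Helper51.SW.LogDeriv
import Pool.Agent.Helper51.SW.Tent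
import Pool.Agent.Helper51.SW.Transform
import Pool.Agent.Helper1.SW.SW9
import Pool.Agent.Helper10.SW.Bilin
import Pool.Agent.Helper13.SW.Vaughan
import Pool.Agent.Helper13.SW.TypeI
import Pool.Agent.Helper95.SW.TypeII
import Pool.Agent.Helper14.SW.Large
import Pool.Agent.Helper22.SW.BVsmall
import Pool.Agent.Helper79.SW.Mass
import Pool.Agent.Helper97.SW.Nsum
import Pool.Agent.Helper97.SW.Psl

/-! All parts put together: Siegel, Siegel and Walfisz, Bombieri and Vinogradov, the sieve for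
primes, and the limit of the Erdos-Rankin method without any condition on small primes. -/

namespace Pool.Agent.Helper6.ER2

open Pool.Agent.Helper6.SW Pool.Agent.Helper6.ER

theorem siegel : StSiegel :=
  stSiegel_of (Helper4.SW.stUpper_of stPartial) (Helper4.SW.stCoarse_of stPartial) stEstermann
    Helper16.SW.stQuad (stReal_of stPartial) stBall

theorem logDeriv : StLogDeriv :=
  Helper51.SW.stLogDeriv_of (Helper4.SW.stDeriv_of stPartial)
    (Helper51.SW.stLower_of (Helper4.SW.stUpper_of stPartial) (Helper4.SW.stDeriv_of stPartial)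
      Helper16.SW.stTrivA Helper16.SW.stTrivB)

theorem siegelWalfisz : StSW :=
  Helper1.SW.stSW_of siegel logDeriv Helper51.SW.stTent Helper51.SW.stTransform

theorem bilin : StBilin := Helper10.SW.stBilin_of Helper51.SW.stTent

theorem largeConductors : StLarge :=
  Helper14.SW.stLarge_of Helper13.SW.stVaughan Helper13.SW.stTypeI
    (Helper95.SW.stTypeII_of bilin)

theorem bombieriVinogradov : StBV := Helper22.SW.stBV_of siegelWalfisz largeConductors

theorem primeSieve : StPSL :=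
  Helper97.SW.stPSL_of bombieriVinogradov Helper79.SW.stMass_of Helper16.SW.stMinorant

theorem exists_core2 : ∃ K₀ c₀ c₁ : ℝ, 0 < K₀ ∧ 0 < c₀ ∧ 0 < c₁ ∧ StCore2 K₀ c₀ c₁ := by
  obtain ⟨Cc, hCc, hcap⟩ := capacity
  exact core2_of primeSieve Helper97.SW.stNsum hCc hcap

/-- the structure theorem for all runs -/
theorem exists_A2 : ∃ K₀ c₀ c₁ : ℝ, 1 < K₀ ∧ 0 < c₀ ∧ 0 < c₁ ∧ StA2 K₀ c₀ c₁ := by
  obtain ⟨K₀, c₀, c₁, hK₀, hc₀, hc₁, h⟩ := exists_core2
  exact ⟨3 * K₀ + 9, c₀, c₁ / 4, by linarith, hc₀, by linarith, partA2 hK₀ hc₁ h⟩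

/-- the limit of the Erdos-Rankin method -/
theorem exists_B2 : ∃ C c₀ : ℝ, 0 < C ∧ 0 < c₀ ∧ StB2 C c₀ := by
  obtain ⟨K₀, c₀, c₁, hK₀, hc₀, hc₁, h⟩ := exists_A2
  exact partB2 hK₀ hc₀ hc₁ h

end Pool.Agent.Helper6.ER2
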